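import Pool.Agent.U180.DP.Stm

/-!
# Project DP, package BCN: the second Borel-Cantelli lemma for negatively correlated events
(helper858)
-/

set_option autoImplicit false

open MeasureTheory ProbabilityTheory Filter Topology

namespace Pool.Agent.U858.DP

open Pool.Agent.U180.DP

section fin

variable {Ω : Type} [MeasurableSpace Ω] (P : Measure Ω) [IsProbabilityMeasure P] (E : ℕ → Set Ω)

/-- the indicator of `E n` -/
noncomputable def ind (n : ℕ) (ω : Ω) : ℝ := (E n).indicator (fun _ => (1 : ℝ)) ω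

theorem ind_int (hE : ∀ n, MeasurableSet (E n)) (n : ℕ) : Integrable (ind E n) P :=
  (integrable_const (1 : ℝ)).indicator (hE n)

omit [MeasurableSpace Ω] in
theorem ind_mul (n k : ℕ) (ω : Ω) :
    ind E n ω * ind E k ω = (E n ∩ E k).indicator (fun _ => (1 : ℝ)) ω := by
  unfold ind
  by_cases h1 : ω ∈ E n
  · by_cases h2 : ω ∈ E k
    · have h3 : ω ∈ E n ∩ E k := ⟨h1, h2⟩
      rw [Set.indicator_of_mem h1, Set.indicator_of_mem h2, Set.indicator_of_mem h3, one_mul]
    · have h3 : ω ∉ E n ∩ E k := fun h => h2 (Set.mem_of_mem_inter_right h)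
      rw [Set.indicator_of_notMem h2, Set.indicator_of_notMem h3, mul_zero]
  · have h3 : ω ∉ E n ∩ E k := fun h => h1 (Set.mem_of_mem_inter_left h)
    rw [Set.indicator_of_notMem h1, Set.indicator_of_notMem h3, zero_mul]

omit [IsProbabilityMeasure P] in
theorem int_one (s : Set Ω) (hs : MeasurableSet s) :
    ∫ ω, s.indicator (fun _ => (1 : ℝ)) ω ∂P = P.real s := by
  rw [integral_indicator hs]
  simp

theorem cov (hE : ∀ n, MeasurableSet (E n)) (n k : ℕ) :
    Integrable (fun ω => (ind E n ω - P.real (E n)) * (ind E k ω - P.real (E k))) P ∧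
    ∫ ω, (ind E n ω - P.real (E n)) * (ind E k ω - P.real (E k)) ∂P =
      P.real (E n ∩ E k) - P.real (E n) * P.real (E k) := by
  have h0 : (fun ω => (ind E n ω - P.real (E n)) * (ind E k ω - P.real (E k))) =
      fun ω => (E n ∩ E k).indicator (fun _ => (1 : ℝ)) ω - P.real (E n) * ind E k ω -
        P.real (E k) * ind E n ω + P.real (E n) * P.real (E k) := by
    funext ω
    rw [← ind_mul]
    ring
  have i1 : Integrable (fun ω => (E n ∩ E k).indicator (fun _ => (1 : ℝ)) ω) P :=
    (integrable_const (1 : ℝ)).indicator ((hE n).inter (hE k))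
  have i2 : Integrable (fun ω => P.real (E n) * ind E k ω) P := (ind_int P E hE k).const_mul _
  have i3 : Integrable (fun ω => P.real (E k) * ind E n ω) P := (ind_int P E hE n).const_mul _
  have i4 : Integrable (fun _ : Ω => P.real (E n) * P.real (E k)) P := integrable_const _
  have e1 : ∫ ω, ind E k ω ∂P = P.real (E k) := int_one P _ (hE k)
  have e2 : ∫ ω, ind E n ω ∂P = P.real (E n) := int_one P _ (hE n)
  rw [h0]
  refine ⟨((i1.sub i2).sub i3).add i4, ?_⟩
  rw [integral_add (f := fun ω => (E n ∩ E k).indicator (fun _ => (1 : ℝ)) ω -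
      P.real (E n) * ind E k ω - P.real (E k) * ind E n ω) ((i1.sub i2).sub i3) i4,
    integral_sub (f := fun ω => (E n ∩ E k).indicator (fun _ => (1 : ℝ)) ω -
      P.real (E n) * ind E k ω) (i1.sub i2) i3, integral_sub i1 i2, integral_const_mul,
    integral_const_mul, e1, e2, int_one P _ ((hE n).inter (hE k)), integral_const]
  simp only [probReal_univ, smul_eq_mul, one_mul]
  ring

theorem fin_ineq (hE : ∀ n, MeasurableSet (E n))
    (hneg : ∀ n m, n < m → P.real (E n ∩ E m) ≤ P.real (E n) * P.real (E m)) (s : Finset ℕ) :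
    (∑ n ∈ s, P.real (E n)) ^ 2 * P.real {ω | ∀ n ∈ s, ω ∉ E n} ≤ ∑ n ∈ s, P.real (E n) := by
  have hZ : MeasurableSet {ω | ∀ n ∈ s, ω ∉ E n} := by
    have h1 : {ω | ∀ n ∈ s, ω ∉ E n} = ⋂ n ∈ s, (E n)ᶜ := by
      ext ω
      simp
    rw [h1]
    exact Finset.measurableSet_biInter s fun n _ => (hE n).compl
  have hcov : ∀ n k, P.real (E n ∩ E k) - P.real (E n) * P.real (E k) ≤
      if n = k then P.real (E n) else 0 := by
    intro n k
    split_ifs with h
    · rw [← h, Set.inter_self]
      have : 0 ≤ P.real (E n) * P.real (E n) := by positivity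
      linarith
    · rcases lt_or_gt_of_ne h with h1 | h1
      · have := hneg n k h1
        linarith
      · have := hneg k n h1
        rw [Set.inter_comm, mul_comm] at this
        linarith
  have hsq : ∀ ω, (∑ n ∈ s, (ind E n ω - P.real (E n))) ^ 2 =
      ∑ n ∈ s, ∑ k ∈ s, (ind E n ω - P.real (E n)) * (ind E k ω - P.real (E k)) := by
    intro ω
    rw [sq, Finset.sum_mul_sum]
  have hint : Integrable (fun ω => (∑ n ∈ s, (ind E n ω - P.real (E n))) ^ 2) P := by
    simp only [hsq]
    exact integrable_finsetSum _ fun n _ => integrable_finsetSum _ fun k _ => (cov P E hE n k).1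
  have hle : ∫ ω, (∑ n ∈ s, (ind E n ω - P.real (E n))) ^ 2 ∂P ≤ ∑ n ∈ s, P.real (E n) := by
    simp only [hsq]
    rw [integral_finsetSum _ fun n _ => integrable_finsetSum _ fun k _ => (cov P E hE n k).1]
    refine Finset.sum_le_sum fun n hn => ?_
    rw [integral_finsetSum _ fun k _ => (cov P E hE n k).1]
    calc ∑ k ∈ s, ∫ ω, (ind E n ω - P.real (E n)) * (ind E k ω - P.real (E k)) ∂P
        ≤ ∑ k ∈ s, (if n = k then P.real (E n) else 0) := by
          refine Finset.sum_le_sum fun k _ => ?_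
          rw [(cov P E hE n k).2]
          exact hcov n k
      _ = P.real (E n) := by
          rw [Finset.sum_ite_eq, if_pos hn]
  have hpt : ∀ ω, (∑ n ∈ s, P.real (E n)) ^ 2 *
      ({ω | ∀ n ∈ s, ω ∉ E n} : Set Ω).indicator (fun _ => (1 : ℝ)) ω ≤
      (∑ n ∈ s, (ind E n ω - P.real (E n))) ^ 2 := by
    intro ω
    by_cases h : ω ∈ ({ω | ∀ n ∈ s, ω ∉ E n} : Set Ω)
    · rw [Set.indicator_of_mem h, mul_one]
      have h1 : ∑ n ∈ s, (ind E n ω - P.real (E n)) = -∑ n ∈ s, P.real (E n) := by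
        rw [← Finset.sum_neg_distrib]
        refine Finset.sum_congr rfl fun n hn => ?_
        have : ind E n ω = 0 := Set.indicator_of_notMem (h n hn) _
        rw [this, zero_sub]
      rw [h1, neg_sq]
    · rw [Set.indicator_of_notMem h, mul_zero]
      positivity
  calc (∑ n ∈ s, P.real (E n)) ^ 2 * P.real {ω | ∀ n ∈ s, ω ∉ E n}
      = ∫ ω, (∑ n ∈ s, P.real (E n)) ^ 2 *
          ({ω | ∀ n ∈ s, ω ∉ E n} : Set Ω).indicator (fun _ => (1 : ℝ)) ω ∂P := by
        rw [integral_const_mul, int_one P _ hZ]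
    _ ≤ ∫ ω, (∑ n ∈ s, (ind E n ω - P.real (E n))) ^ 2 ∂P :=
        integral_mono (((integrable_const (1 : ℝ)).indicator hZ).const_mul _) hint hpt
    _ ≤ ∑ n ∈ s, P.real (E n) := hle

end fin

theorem t_BCN : S_BCN := by
  intro Ω _ P hP E hE hneg hdiv
  have htend : Tendsto (fun b => ∑ n ∈ Finset.range b, P.real (E n)) atTop atTop :=
    (not_summable_iff_tendsto_nat_atTop_of_nonneg fun n => measureReal_nonneg).1 hdiv
  have hzero : ∀ a : ℕ, P {ω | ∀ n, a ≤ n → ω ∉ E n} = 0 := by
    intro a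
    by_contra hne
    set c : ℝ := P.real {ω | ∀ n, a ≤ n → ω ∉ E n} with hc
    have hc0 : 0 < c := by
      rw [hc, measureReal_def]
      exact ENNReal.toReal_pos hne (measure_ne_top _ _)
    set m0 : ℝ := ∑ n ∈ Finset.range a, P.real (E n) with hm0
    obtain ⟨b, hb, hab⟩ := ((htend.eventually_gt_atTop (m0 + 1 / c)).and
      (eventually_ge_atTop a)).exists
    have hsplit : ∑ n ∈ Finset.range b, P.real (E n) = m0 + ∑ n ∈ Finset.Ico a b, P.real (E n) := by
      rw [hm0, Finset.sum_range_add_sum_Ico _ hab]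
    set m : ℝ := ∑ n ∈ Finset.Ico a b, P.real (E n) with hm
    have hm1 : 1 / c < m := by linarith
    have hmpos : 0 < m := lt_trans (by positivity) hm1
    have h1 := fin_ineq P E hE hneg (Finset.Ico a b)
    rw [← hm] at h1
    have h2 : c ≤ P.real {ω | ∀ n ∈ Finset.Ico a b, ω ∉ E n} := by
      refine measureReal_mono (fun ω hω n hn => ?_) (measure_ne_top _ _)
      exact hω n (Finset.mem_Ico.1 hn).1
    have h3 : m ^ 2 * c ≤ m := (mul_le_mul_of_nonneg_left h2 (sq_nonneg m)).trans h1
    have h4 : m * c ≤ 1 := by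
      have : m * (m * c) ≤ m * 1 := by nlinarith
      exact le_of_mul_le_mul_left this hmpos
    have h5 : 1 < m * c := by
      rwa [div_lt_iff₀ hc0] at hm1
    linarith
  have hae : ∀ᵐ ω ∂P, ∀ a : ℕ, ω ∉ {ω | ∀ n, a ≤ n → ω ∉ E n} := by
    rw [ae_all_iff]
    intro a
    exact measure_eq_zero_iff_ae_notMem.1 (hzero a)
  filter_upwards [hae] with ω hω
  rw [frequently_atTop]
  intro a
  have h := hω a
  simp only [not_forall, not_not] at h
  obtain ⟨n, hn, hnE⟩ := h
  exact ⟨n, hn, hnE⟩

end Pool.Agent.U858.DP
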